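import Mathlib

set_option autoImplicit false

/-! Involutions of fields that are closed under square roots: the fixed field is Euclidean. -/

namespace Pool.Agent.Helper99.ER

variable {F K : Type} [Field F] [Field K] [Algebra F K]

/-- `x` is the square of an element fixed by `τ` -/
def Sq (τ : K ≃ₐ[F] K) (x : K) : Prop := ∃ w : K, τ w = w ∧ w ^ 2 = x

/-- a nontrivial involution of a field closed under square roots -/
structure Inv (τ : K ≃ₐ[F] K) : Prop where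
  two : (2 : K) ≠ 0
  root : ∀ x : K, ∃ y : K, y ^ 2 = x
  ne : τ ≠ 1
  inv : ∀ x : K, τ (τ x) = x

section

variable {τ : K ≃ₐ[F] K}

lemma Sq.fix {x : K} (h : Sq τ x) : τ x = x := by
  obtain ⟨w, hw, rfl⟩ := h
  rw [map_pow, hw]

lemma Sq.zero : Sq τ (0 : K) := ⟨0, map_zero _, by ring⟩

lemma Sq.one : Sq τ (1 : K) := ⟨1, map_one _, by ring⟩

lemma Sq.mul {x y : K} (hx : Sq τ x) (hy : Sq τ y) : Sq τ (x * y) := by
  obtain ⟨w, hw, rfl⟩ := hx
  obtain ⟨v, hv, rfl⟩ := hy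
  exact ⟨w * v, by rw [map_mul, hw, hv], by ring⟩

lemma Sq.inv {x : K} (hx : Sq τ x) : Sq τ x⁻¹ := by
  obtain ⟨w, hw, rfl⟩ := hx
  exact ⟨w⁻¹, by rw [map_inv₀, hw], by rw [inv_pow]⟩

lemma Sq.of_mul {x y : K} (hxy : Sq τ (x * y)) (hy : Sq τ y) (hy0 : y ≠ 0) : Sq τ x := by
  have h := hxy.mul hy.inv
  rwa [mul_assoc, mul_inv_cancel₀ hy0, mul_one] at h

lemma sq_of_fix {w : K} (hw : τ w = w) : Sq τ (w ^ 2) := ⟨w, hw, rfl⟩

/-- the imaginary unit is not fixed -/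
lemma Inv.i_neg (h : Inv τ) {i : K} (hi : i ^ 2 = -1) : τ i = -i := by
  have h1 : (τ i) ^ 2 = i ^ 2 := by rw [← map_pow, hi, map_neg, map_one]
  rcases sq_eq_sq_iff_eq_or_eq_neg.1 h1 with h2 | h2
  swap
  · exact h2
  exfalso
  obtain ⟨e, he⟩ : ∃ e : K, τ e ≠ e := by
    by_contra hcon
    push Not at hcon
    exact h.ne (AlgEquiv.ext hcon)
  have hz0 : e - τ e ≠ 0 := sub_ne_zero.2 (Ne.symm he)
  have hz : τ (e - τ e) = -(e - τ e) := by rw [map_sub, h.inv]; ring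
  obtain ⟨w, hw⟩ := h.root (e - τ e)
  have hw0 : w ≠ 0 := by
    rintro rfl
    apply hz0
    rw [← hw]; ring
  have h3 : (τ w) ^ 2 = (i * w) ^ 2 := by
    rw [← map_pow, hw, hz, mul_pow, hi, hw]; ring
  have h4 : τ (τ w) = -w := by
    rcases sq_eq_sq_iff_eq_or_eq_neg.1 h3 with h5 | h5
    · rw [h5, map_mul, h2, h5]
      linear_combination w * hi
    · rw [h5, map_neg, map_mul, h2, h5]
      linear_combination w * hi
  rw [h.inv] at h4
  have h5 : 2 * w = 0 := by linear_combination h4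
  rcases mul_eq_zero.1 h5 with h6 | h6
  · exact h.two h6
  · exact hw0 h6

lemma Inv.exists_i (h : Inv τ) : ∃ i : K, i ^ 2 = -1 ∧ τ i = -i := by
  obtain ⟨i, hi⟩ := h.root (-1)
  exact ⟨i, hi, h.i_neg hi⟩

lemma Inv.anti (h : Inv τ) {x : K} (hx : Sq τ x) (hx' : Sq τ (-x)) : x = 0 := by
  by_contra hx0
  have h1 : Sq τ (-1) := by
    have h2 := hx'.mul hx.inv
    rwa [neg_mul, mul_inv_cancel₀ hx0] at h2
  obtain ⟨w, hw, hw1⟩ := h1
  have h2 := h.i_neg hw1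
  rw [hw] at h2
  have h3 : 2 * w = 0 := by linear_combination h2
  rcases mul_eq_zero.1 h3 with h6 | h6
  · exact h.two h6
  · rw [h6] at hw1
    have : (1 : K) = 0 := by linear_combination hw1
    exact one_ne_zero this

lemma Inv.tot (h : Inv τ) {x : K} (hx : τ x = x) : Sq τ x ∨ Sq τ (-x) := by
  obtain ⟨i, hi, hi1⟩ := h.exists_i
  obtain ⟨y, hy⟩ := h.root x
  have h1 : (τ y) ^ 2 = y ^ 2 := by rw [← map_pow, hy, hx]
  rcases sq_eq_sq_iff_eq_or_eq_neg.1 h1 with h2 | h2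
  · exact Or.inl ⟨y, h2, hy⟩
  · right
    refine ⟨i * y, ?_, ?_⟩
    · rw [map_mul, hi1, h2]; ring
    · rw [mul_pow, hi, hy]; ring

lemma Inv.add (h : Inv τ) {x y : K} (hx : Sq τ x) (hy : Sq τ y) : Sq τ (x + y) := by
  obtain ⟨i, hi, hi1⟩ := h.exists_i
  obtain ⟨a, ha, rfl⟩ := hx
  obtain ⟨b, hb, rfl⟩ := hy
  obtain ⟨w, hw⟩ := h.root (a + i * b)
  refine ⟨w * τ w, ?_, ?_⟩
  · rw [map_mul, h.inv, mul_comm]
  · rw [mul_pow, ← map_pow, hw, map_add, map_mul, ha, hb, hi1]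
    linear_combination -b ^ 2 * hi

lemma Inv.add_eq_zero (h : Inv τ) {x y : K} (hx : Sq τ x) (hy : Sq τ y) (hxy : x + y = 0) :
    x = 0 := by
  apply h.anti hx
  rwa [neg_eq_of_add_eq_zero_right hxy]

/-- norms are squares -/
lemma Inv.norm (h : Inv τ) (z : K) : Sq τ (z * τ z) := by
  obtain ⟨w, hw⟩ := h.root z
  refine ⟨w * τ w, ?_, ?_⟩
  · rw [map_mul, h.inv, mul_comm]
  · rw [mul_pow, ← map_pow, hw]

/-- every element is a sum of a fixed element and `i` times a fixed element -/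
lemma Inv.decomp (h : Inv τ) {i : K} (hi : i ^ 2 = -1) (x : K) :
    ∃ a b : K, τ a = a ∧ τ b = b ∧ x = a + i * b := by
  have h2 := h.two
  have hi1 := h.i_neg hi
  have hi0 : i ≠ 0 := by
    rintro rfl
    have : (1 : K) = 0 := by linear_combination hi
    exact one_ne_zero this
  refine ⟨(x + τ x) / 2, (x - τ x) / (2 * i), ?_, ?_, ?_⟩
  · rw [map_div₀, map_add, h.inv, map_ofNat]; ring
  · rw [map_div₀, map_sub, h.inv, map_mul, map_ofNat, hi1]
    field_simp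
    ring
  · field_simp
    ring

end

/-- the positive elements of `F` for the involution `τ` -/
def Pos (τ : K ≃ₐ[F] K) : Subgroup Fˣ where
  carrier := {a | Sq τ (algebraMap F K a)}
  mul_mem' := by
    intro a b ha hb
    change Sq τ _
    rw [Units.val_mul, map_mul]
    exact Sq.mul ha hb
  one_mem' := by
    change Sq τ _
    rw [Units.val_one, map_one]
    exact Sq.one
  inv_mem' := by
    intro a ha
    change Sq τ _
    rw [Units.val_inv_eq_inv_val, map_inv₀]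
    exact Sq.inv ha

lemma mem_Pos {τ : K ≃ₐ[F] K} {a : Fˣ} : a ∈ Pos τ ↔ Sq τ (algebraMap F K a) := Iff.rfl

lemma Inv.pos_neg {τ : K ≃ₐ[F] K} (h : Inv τ) : -1 ∉ Pos τ := by
  intro h1
  rw [mem_Pos, Units.val_neg, Units.val_one, map_neg, map_one] at h1
  exact one_ne_zero (h.anti Sq.one h1)

lemma Inv.pos_tot {τ : K ≃ₐ[F] K} (h : Inv τ) (u : Fˣ) : u ∈ Pos τ ∨ -u ∈ Pos τ := by
  rw [mem_Pos, mem_Pos, Units.val_neg, map_neg]
  exact h.tot (AlgEquiv.commutes τ _)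

lemma Inv.pos_add {τ : K ≃ₐ[F] K} (h : Inv τ) {u v : Fˣ} (hu : u ∈ Pos τ) (hv : v ∈ Pos τ) :
    ∃ z : Fˣ, (z : F) = u + v ∧ z ∈ Pos τ := by
  have h0 : (u : F) + v ≠ 0 := by
    intro h1
    have h2 : algebraMap F K u = 0 := by
      apply h.add_eq_zero hu hv
      rw [← map_add, h1, map_zero]
    rw [map_eq_zero] at h2
    exact u.ne_zero h2
  refine ⟨Units.mk0 _ h0, rfl, ?_⟩
  rw [mem_Pos, Units.val_mk0, map_add]
  exact h.add hu hv

end Pool.Agent.Helper99.ER
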