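import Mathlib
import Pool.Agent.Helper66.ETC.Defs

set_option autoImplicit false

/-! Quadratic steps in `2`-extensions. -/

namespace Pool.Agent.Helper99.ER

open IntermediateField

/-- `K/F` is a Galois `2`-extension closed under square roots -/
structure Q2 (F K : Type) [Field F] [Field K] [Algebra F K] : Prop where
  gal : IsGalois F K
  root : ∀ x : K, ∃ y : K, y ^ 2 = x
  tor : ∀ (σ : K ≃ₐ[F] K) (x : K), ∃ k : ℕ, (σ ^ (2 ^ k)) x = x
  two : (2 : K) ≠ 0

variable {F K : Type} [Field F] [Field K] [Algebra F K]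

lemma Q2.of_pcl (h : ETC.PCl 2 F K) (h2 : (2 : F) ≠ 0) : Q2 F K := by
  have := h.gal
  refine ⟨h.gal, h.root, ?_, ?_⟩
  · intro σ x
    let L : IntermediateField F K := IntermediateField.normalClosure F F⟮x⟯ K
    have hfd0 : FiniteDimensional F F⟮x⟯ :=
      IntermediateField.adjoin.finiteDimensional (Algebra.IsIntegral.isIntegral x)
    have hfd : FiniteDimensional F L := inferInstance
    have hn : Normal F L := inferInstance
    have hg : IsGalois F L := { }
    obtain ⟨k, hk⟩ := h.pgp L hfd hg
    have hx : x ∈ L := by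
      have h1 : F⟮x⟯ ≤ L := IntermediateField.le_normalClosure _
      exact h1 (IntermediateField.mem_adjoin_simple_self F x)
    refine ⟨k, ?_⟩
    have h1 : (AlgEquiv.restrictNormalHom L σ) ^ (2 ^ k) = 1 := by
      rw [← hk, ← IsGalois.card_aut_eq_finrank]
      exact pow_card_eq_one'
    rw [← map_pow] at h1
    have h3 := AlgEquiv.restrictNormal_commutes (σ ^ (2 ^ k)) L ⟨x, hx⟩
    have h4 : (AlgEquiv.restrictNormal (σ ^ (2 ^ k)) L) = 1 := h1
    rw [h4] at h3
    exact h3.symm
  · intro h3
    apply h2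
    have h4 : algebraMap F K 2 = 0 := by rw [map_ofNat]; exact h3
    exact (map_eq_zero _).1 h4

lemma Q2.up (h : Q2 F K) (E : IntermediateField F K) : Q2 E K := by
  have := h.gal
  refine ⟨inferInstance, h.root, ?_, h.two⟩
  intro σ x
  obtain ⟨k, hk⟩ := h.tor (σ.restrictScalars F) x
  refine ⟨k, ?_⟩
  have h1 : ∀ n : ℕ, ∀ y : K, ((σ.restrictScalars F) ^ n) y = (σ ^ n) y := by
    intro n
    induction n with
    | zero => intro y; rfl
    | succ n ih =>
      intro y
      rw [pow_succ, pow_succ, AlgEquiv.mul_apply, AlgEquiv.mul_apply, ih]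
      rfl
  rw [← h1]
  exact hk

/-- the Galois group of a finite subextension is a 2-group -/
lemma Q2.isPGroup (h : Q2 F K) (L : IntermediateField F K) [FiniteDimensional F L] [Normal F L] :
    IsPGroup 2 (L ≃ₐ[F] L) := by
  have := h.gal
  intro g
  obtain ⟨σ, hσ⟩ := AlgEquiv.restrictNormalHom_surjective (F := F) (K₁ := L) K g
  have hsep : Algebra.IsSeparable F L := inferInstance
  obtain ⟨α, hα⟩ := Field.exists_primitive_element F L
  obtain ⟨k, hk⟩ := h.tor σ (α : K)
  refine ⟨k, ?_⟩
  have h1 : (g ^ (2 ^ k)) α = α := by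
    rw [← hσ, ← map_pow]
    apply Subtype.ext
    rw [← hk]
    have h3 := AlgEquiv.restrictNormal_commutes (σ ^ (2 ^ k)) L α
    rw [hk]
    exact h3.trans hk
  have h2 : (⊤ : IntermediateField F L) ≤ IntermediateField.fixedField (Subgroup.zpowers (g ^ (2 ^ k))) := by
    rw [← hα, IntermediateField.adjoin_simple_le_iff, IntermediateField.mem_fixedField_iff]
    intro f hf
    obtain ⟨n, rfl⟩ := Subgroup.mem_zpowers_iff.1 hf
    have h3 : g ^ (2 ^ k) ∈ MulAction.stabilizer (L ≃ₐ[F] L) α := h1
    exact Subgroup.zpow_mem _ h3 n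
  ext x
  have h3 := (IntermediateField.mem_fixedField_iff _ _).1 (h2 (IntermediateField.mem_top (x := x)))
    (g ^ (2 ^ k)) (Subgroup.mem_zpowers _)
  rw [h3]
  rfl

/-- a quadratic step -/
lemma Q2.qs_bot (h : Q2 F K) (M : IntermediateField F K) (hM : M ≠ ⊥) :
    ∃ y ∈ M, y ∉ (⊥ : IntermediateField F K) ∧ y ^ 2 ∈ (⊥ : IntermediateField F K) := by
  have := h.gal
  obtain ⟨x, hxM, hx⟩ : ∃ x ∈ M, x ∉ (⊥ : IntermediateField F K) := by
    by_contra hcon
    push Not at hcon
    exact hM (le_bot_iff.1 hcon)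
  let L : IntermediateField F K := IntermediateField.normalClosure F F⟮x⟯ K
  have hfd0 : FiniteDimensional F F⟮x⟯ :=
    IntermediateField.adjoin.finiteDimensional (Algebra.IsIntegral.isIntegral x)
  have hfd : FiniteDimensional F L := inferInstance
  have hn : Normal F L := inferInstance
  have hg : IsGalois F L := { }
  have hxL' : F⟮x⟯ ≤ L := IntermediateField.le_normalClosure _
  have hxL : x ∈ L := hxL' (IntermediateField.mem_adjoin_simple_self F x)
  have hP := h.isPGroup L
  obtain ⟨m, hm⟩ := IsPGroup.iff_card.1 hP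
  let X : IntermediateField F L := F⟮(⟨x, hxL⟩ : L)⟯
  obtain ⟨n, hn1⟩ := IsPGroup.iff_card.1 (hP.to_subgroup X.fixingSubgroup)
  have hnm : n < m := by
    have h1 : Nat.card X.fixingSubgroup ≠ Nat.card (L ≃ₐ[F] L) := by
      intro h1
      have h2 := Subgroup.eq_top_of_card_eq _ h1
      have h3 : X = ⊥ := by
        rw [← IsGalois.fixedField_fixingSubgroup X, h2]
        exact IsGalois.fixedField_top
      have h4 : (⟨x, hxL⟩ : L) ∈ (⊥ : IntermediateField F L) := by
        rw [← h3]
        exact IntermediateField.mem_adjoin_simple_self F _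
      rw [IntermediateField.mem_bot] at h4
      obtain ⟨a, ha⟩ := h4
      apply hx
      rw [IntermediateField.mem_bot]
      exact ⟨a, congrArg Subtype.val ha⟩
    have h2 : Nat.card X.fixingSubgroup ∣ Nat.card (L ≃ₐ[F] L) := Subgroup.card_subgroup_dvd_card _
    rw [hm, hn1] at h1 h2
    have h3 := (Nat.pow_dvd_pow_iff_le_right (by norm_num : 1 < 2)).1 h2
    rcases h3.lt_or_eq with h4 | h4
    · exact h4
    · exact absurd (by rw [h4]) h1
  have _ : Fact (Nat.Prime 2) := ⟨Nat.prime_two⟩
  obtain ⟨H, hH, hXH⟩ := Sylow.exists_subgroup_card_pow_prime_le (G := (L ≃ₐ[F] L)) (p := 2)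
    (n := n) (m := m - 1) (by rw [hm]; exact pow_dvd_pow 2 (Nat.sub_le m 1)) X.fixingSubgroup
    hn1 (by omega)
  let Q : IntermediateField F L := IntermediateField.fixedField H
  have hQX : Q ≤ X := by
    have h1 := IntermediateField.fixedField_le (F := F) (E := L) hXH
    rwa [IsGalois.fixedField_fixingSubgroup] at h1
  have hQ2 : Module.finrank F Q = 2 := by
    have h1 := IntermediateField.finrank_fixedField_eq_card (F := F) (E := L) H
    have h2 := Module.finrank_mul_finrank F Q L
    rw [h1, hH, ← IsGalois.card_aut_eq_finrank F L, hm] at h2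
    have h3 : 2 ^ m = 2 ^ (m - 1) * 2 := by rw [← pow_succ]; congr 1; omega
    rw [h3, mul_comm] at h2
    exact Nat.eq_of_mul_eq_mul_left (by positivity) h2
  -- an element of `Q` not in `F`
  obtain ⟨y, hyQ, hy⟩ : ∃ y ∈ Q, y ∉ (⊥ : IntermediateField F L) := by
    by_contra hcon
    push Not at hcon
    have h1 : Q = ⊥ := le_bot_iff.1 hcon
    rw [h1] at hQ2
    rw [IntermediateField.finrank_bot] at hQ2
    norm_num at hQ2
  -- its minimal polynomial has degree 2
  have hint : IsIntegral F y := Algebra.IsIntegral.isIntegral y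
  have hdeg : (minpoly F y).natDegree = 2 := by
    have h1 : F⟮y⟯ ≤ Q := by rwa [IntermediateField.adjoin_simple_le_iff]
    have h2 : Module.finrank F F⟮y⟯ = (minpoly F y).natDegree :=
      IntermediateField.adjoin.finrank hint
    have h3 : Module.finrank F F⟮y⟯ ≤ 2 := by
      rw [← hQ2]
      exact IntermediateField.finrank_le_of_le_right h1
    have h4 : Module.finrank F F⟮y⟯ ≠ 1 := by
      intro h4
      have h5 := IntermediateField.finrank_eq_one_iff.1 h4
      apply hy
      rw [← h5]
      exact IntermediateField.mem_adjoin_simple_self F y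
    have h5 : 0 < Module.finrank F F⟮y⟯ := by
      have : FiniteDimensional F F⟮y⟯ := IntermediateField.adjoin.finiteDimensional hint
      exact Module.finrank_pos
    omega
  have heq : algebraMap F L ((minpoly F y).coeff 0) + algebraMap F L ((minpoly F y).coeff 1) * y +
      y ^ 2 = 0 := by
    have h1 := minpoly.aeval F y
    rw [Polynomial.aeval_eq_sum_range, hdeg, Finset.sum_range_succ, Finset.sum_range_succ,
      Finset.sum_range_succ, Finset.sum_range_zero] at h1
    have h2 : (minpoly F y).coeff 2 = 1 := by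
      have := (minpoly.monic hint).coeff_natDegree
      rwa [hdeg] at this
    rw [h2] at h1
    simp only [Algebra.smul_def, pow_zero, pow_one, mul_one, map_one, one_mul, zero_add] at h1
    exact h1
  set c := (minpoly F y).coeff 0
  set b := (minpoly F y).coeff 1
  have h2F : (2 : F) ≠ 0 := by
    intro h3
    apply h.two
    have h4 : algebraMap F K 2 = 0 := by rw [h3, map_zero]
    rwa [map_ofNat] at h4
  have h2L : (2 : L) ≠ 0 := by
    intro h3
    apply h2F
    have h4 : algebraMap F L 2 = 0 := by rw [map_ofNat]; exact h3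
    exact (map_eq_zero _).1 h4
  refine ⟨((y + algebraMap F L (b / 2) : L) : K), ?_, ?_, ?_⟩
  · have h1 : X.map L.val ≤ M := by
      rw [IntermediateField.adjoin_map, IntermediateField.adjoin_le_iff]
      rintro _ ⟨z, hz, rfl⟩
      rw [Set.mem_singleton_iff] at hz
      rw [hz]
      exact hxM
    apply h1
    exact ⟨_, add_mem (hQX hyQ) (X.algebraMap_mem _), rfl⟩
  · intro h1
    rw [IntermediateField.mem_bot] at h1
    obtain ⟨a, ha⟩ := h1
    apply hy
    rw [IntermediateField.mem_bot]
    refine ⟨a - b / 2, ?_⟩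
    apply Subtype.ext
    rw [map_sub]
    have e : ((algebraMap F L a : L) : K) = algebraMap F K a := rfl
    have e2 : ((algebraMap F L a - algebraMap F L (b / 2) : L) : K) =
        ((algebraMap F L a : L) : K) - ((algebraMap F L (b / 2) : L) : K) := rfl
    have e3 : ((y + algebraMap F L (b / 2) : L) : K) =
        (y : K) + ((algebraMap F L (b / 2) : L) : K) := rfl
    rw [e2, e, ha, e3]
    ring
  · rw [IntermediateField.mem_bot]
    refine ⟨b ^ 2 / 4 - c, ?_⟩
    have h1 : (y + algebraMap F L (b / 2)) ^ 2 = algebraMap F L (b ^ 2 / 4 - c) := by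
      rw [map_sub, map_div₀, map_div₀, map_pow, map_ofNat, map_ofNat]
      have h4 : (4 : L) = 2 * 2 := by norm_num
      rw [h4]
      field_simp
      linear_combination 4 * heq
    exact (congrArg (fun z : L => (z : K)) h1).symm

/-- a quadratic step between two intermediate fields -/
lemma Q2.qs (h : Q2 F K) {E M : IntermediateField F K} (hEM : E ≤ M) (hne : E ≠ M) :
    ∃ y ∈ M, y ∉ E ∧ y ^ 2 ∈ E := by
  obtain ⟨y, h1, h2, h3⟩ := (h.up E).qs_bot (IntermediateField.extendScalars hEM) (by
    intro h4
    apply hne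
    refine le_antisymm hEM fun x hx => ?_
    have h5 : x ∈ IntermediateField.extendScalars hEM := hx
    rw [h4, IntermediateField.mem_bot] at h5
    obtain ⟨a, rfl⟩ := h5
    exact a.2)
  refine ⟨y, h1, ?_, ?_⟩
  · intro h4
    apply h2
    rw [IntermediateField.mem_bot]
    exact ⟨⟨y, h4⟩, rfl⟩
  · rw [IntermediateField.mem_bot] at h3
    obtain ⟨a, ha⟩ := h3
    rw [← ha]
    exact a.2

end Pool.Agent.Helper99.ER
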