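import Mathlib
import Pool.Agent.Helper99.ER.Inv
import Pool.Agent.Helper99.ER.QS

set_option autoImplicit false

/-! Involutions which induce the same ordering are conjugate. -/

namespace Pool.Agent.Helper99.ER

open IntermediateField

variable {F K : Type} [Field F] [Field K] [Algebra F K]

/-- the fixed field -/
def Mf (τ : K ≃ₐ[F] K) : IntermediateField F K where
  carrier := {x | τ x = x}
  mul_mem' := fun {a b} ha hb => by
    change τ (a * b) = a * b
    rw [map_mul, show τ a = a from ha, show τ b = b from hb]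
  one_mem' := map_one τ
  add_mem' := fun {a b} ha hb => by
    change τ (a + b) = a + b
    rw [map_add, show τ a = a from ha, show τ b = b from hb]
  zero_mem' := map_zero τ
  algebraMap_mem' := fun r => τ.commutes r
  inv_mem' := fun a ha => by
    change τ a⁻¹ = a⁻¹
    rw [map_inv₀, show τ a = a from ha]

lemma mem_Mf {τ : K ≃ₐ[F] K} {x : K} : x ∈ Mf τ ↔ τ x = x := Iff.rfl

/-- the field `E(y)` if `y ^ 2 ∈ E` -/
def qext (E : IntermediateField F K) (y : K) (hy : y ^ 2 ∈ E) : IntermediateField F K where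
  carrier := {x | ∃ a ∈ E, ∃ b ∈ E, x = a + b * y}
  mul_mem' := by
    rintro _ _ ⟨a, ha, b, hb, rfl⟩ ⟨c, hc, d, hd, rfl⟩
    exact ⟨a * c + b * d * y ^ 2, add_mem (mul_mem ha hc) (mul_mem (mul_mem hb hd) hy),
      a * d + b * c, add_mem (mul_mem ha hd) (mul_mem hb hc), by ring⟩
  one_mem' := ⟨1, one_mem _, 0, zero_mem _, by ring⟩
  add_mem' := by
    rintro _ _ ⟨a, ha, b, hb, rfl⟩ ⟨c, hc, d, hd, rfl⟩
    exact ⟨a + c, add_mem ha hc, b + d, add_mem hb hd, by ring⟩
  zero_mem' := ⟨0, zero_mem _, 0, zero_mem _, by ring⟩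
  algebraMap_mem' := fun r => ⟨_, E.algebraMap_mem r, 0, zero_mem _, by ring⟩
  inv_mem' := by
    rintro _ ⟨a, ha, b, hb, rfl⟩
    have hN : a ^ 2 - b ^ 2 * y ^ 2 ∈ E := sub_mem (pow_mem ha 2) (mul_mem (pow_mem hb 2) hy)
    by_cases h0 : a - b * y = 0
    · have h1 : a + b * y ∈ E := by
        have : a + b * y = 2 * a := by linear_combination -h0
        rw [this]
        exact mul_mem (by simp) ha
      exact ⟨_, inv_mem h1, 0, zero_mem _, by ring⟩
    · by_cases h1 : a + b * y = 0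
      · exact ⟨0, zero_mem _, 0, zero_mem _, by rw [h1]; simp⟩
      · refine ⟨a / (a ^ 2 - b ^ 2 * y ^ 2), div_mem ha hN, -b / (a ^ 2 - b ^ 2 * y ^ 2),
          div_mem (neg_mem hb) hN, ?_⟩
        have h2 : a ^ 2 - b ^ 2 * y ^ 2 = (a + b * y) * (a - b * y) := by ring
        rw [h2]
        field_simp
        ring

lemma mem_qext {E : IntermediateField F K} {y : K} {hy : y ^ 2 ∈ E} {x : K} :
    x ∈ qext E y hy ↔ ∃ a ∈ E, ∃ b ∈ E, x = a + b * y := Iff.rfl

lemma le_qext {E : IntermediateField F K} {y : K} {hy : y ^ 2 ∈ E} : E ≤ qext E y hy :=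
  fun x hx => ⟨x, hx, 0, zero_mem _, by ring⟩

lemma self_qext {E : IntermediateField F K} {y : K} {hy : y ^ 2 ∈ E} : y ∈ qext E y hy :=
  ⟨0, zero_mem _, 1, one_mem _, by ring⟩

lemma eq_zero_of {E : IntermediateField F K} {y a b : K} (hy : y ∉ E) (ha : a ∈ E) (hb : b ∈ E)
    (h : a + b * y = 0) : a = 0 ∧ b = 0 := by
  have hb0 : b = 0 := by
    by_contra hb0
    apply hy
    have : y = -a / b := by field_simp; linear_combination h
    rw [this]
    exact div_mem (neg_mem ha) hb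
  rw [hb0, zero_mul, add_zero] at h
  exact ⟨h, hb0⟩

/-- every `F`-homomorphism of an intermediate field extends to an automorphism -/
lemma exists_ext [IsGalois F K] {E : IntermediateField F K} (φ : E →ₐ[F] K) :
    ∃ ψ : K ≃ₐ[F] K, ∀ x : E, ψ x = φ x := by
  let g : K →ₐ[F] K := φ.liftNormal K
  have hb : Function.Bijective g := Algebra.IsAlgebraic.algHom_bijective g
  refine ⟨AlgEquiv.ofBijective g hb, fun x => ?_⟩
  exact φ.liftNormal_commutes K x

/-- the sign lemma -/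
lemma sign {τ τ' : K ≃ₐ[F] K} (hτ : Inv τ) (hτ' : Inv τ') {E : IntermediateField F K}
    (hE : ∀ x ∈ E, τ x = x) (ψ : K ≃ₐ[F] K) (hψ : ∀ x ∈ E, Sq τ x → Sq τ' (ψ x)) {y : K}
    (hyE : y ∉ E) (hy2 : y ^ 2 ∈ E) (hy : Sq τ y) (hy' : Sq τ' (ψ y)) {a b : K} (ha : a ∈ E)
    (hb : b ∈ E) (h : Sq τ (a + b * y)) : Sq τ' (ψ (a + b * y)) := by
  by_cases h0 : a + b * y = 0
  · rw [h0, map_zero]
    exact Sq.zero
  have hconj : a - b * y ≠ 0 := by
    intro h1
    obtain ⟨h2, h3⟩ := eq_zero_of (a := a) (b := -b) hyE ha (neg_mem hb) (by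
      linear_combination h1)
    apply h0
    rw [h2, neg_eq_zero.1 h3]; ring
  have hN : a ^ 2 - b ^ 2 * y ^ 2 ∈ E := sub_mem (pow_mem ha 2) (mul_mem (pow_mem hb 2) hy2)
  have eN : a ^ 2 - b ^ 2 * y ^ 2 = (a + b * y) * (a - b * y) := by ring
  rcases hτ.tot (hE a ha) with h1 | h1 <;> rcases hτ.tot (hE b hb) with h2 | h2
  · rw [map_add, map_mul]
    exact hτ'.add (hψ a ha h1) ((hψ b hb h2).mul hy')
  · -- a ≥ 0, b ≤ 0
    have h3 : Sq τ (a - b * y) := by
      have := hτ.add h1 (h2.mul hy)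
      have e : a - b * y = a + -b * y := by ring
      rwa [e]
    have h4 : Sq τ' (ψ (a - b * y)) := by
      have := hτ'.add (hψ a ha h1) ((hψ _ (neg_mem hb) h2).mul hy')
      have e : ψ (a - b * y) = ψ a + ψ (-b) * ψ y := by
        rw [← map_mul, ← map_add]; congr 1; ring
      rwa [e]
    have h5 : Sq τ' (ψ (a + b * y) * ψ (a - b * y)) := by
      rw [← map_mul, ← eN]
      apply hψ _ hN
      rw [eN]
      exact h.mul h3
    exact h5.of_mul h4 (by rwa [ne_eq, map_eq_zero])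
  · -- a ≤ 0, b ≥ 0
    have h3 : Sq τ (b * y - a) := by
      have := hτ.add h1 (h2.mul hy)
      have e : b * y - a = -a + b * y := by ring
      rwa [e]
    have h4 : Sq τ' (ψ (b * y - a)) := by
      have := hτ'.add (hψ _ (neg_mem ha) h1) ((hψ _ hb h2).mul hy')
      have e : ψ (b * y - a) = ψ (-a) + ψ b * ψ y := by
        rw [← map_mul, ← map_add]; congr 1; ring
      rwa [e]
    have h5 : Sq τ' (ψ (a + b * y) * ψ (b * y - a)) := by
      have e : (a + b * y) * (b * y - a) = -(a ^ 2 - b ^ 2 * y ^ 2) := by ring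
      rw [← map_mul, e]
      apply hψ _ (neg_mem hN)
      rw [← e]
      exact h.mul h3
    refine h5.of_mul h4 ?_
    rw [ne_eq, map_eq_zero]
    intro h6
    exact hconj (by linear_combination -h6)
  · exfalso
    apply h0
    apply hτ.anti h
    have := hτ.add h1 (h2.mul hy)
    have e : -(a + b * y) = -a + -b * y := by ring
    rwa [e]

/-- the set of partial order-preserving embeddings -/
def Good (τ τ' : K ≃ₐ[F] K) : Set (Lifts F K K) :=
  {L | L.carrier ≤ Mf τ ∧ ∀ x : L.carrier, Sq τ (x : K) → Sq τ' (L.emb x)}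

lemma mem_union {c : Set (Lifts F K K)} {hc : IsChain (· ≤ ·) c} {L : Lifts F K K} (hL : L ∈ c)
    {x : K} (hx : x ∈ (Lifts.union c hc).carrier) : ∃ L' ∈ c, x ∈ L'.carrier := by
  have hc' : IsChain (· ≤ ·) (insert ⊥ c) := hc.insert fun _ _ _ ↦ .inl bot_le
  let t (i : ↑(insert (⊥ : Lifts F K K) c)) := i.val.carrier
  have dir : Directed (· ≤ ·) t := hc'.directedOn.directed_val.mono_comp _ fun _ _ h ↦ h.1
  have h1 : (Lifts.union c hc).carrier = iSup t := rfl
  have hne : Nonempty ↑(insert (⊥ : Lifts F K K) c) := ⟨⟨⊥, Set.mem_insert _ _⟩⟩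
  rw [h1, ← SetLike.mem_coe, coe_iSup_of_directed dir, Set.mem_iUnion] at hx
  obtain ⟨⟨L', hL'⟩, hx⟩ := hx
  rcases hL' with rfl | hL'
  · refine ⟨L, hL, ?_⟩
    have h2 : (⊥ : Lifts F K K) ≤ L := bot_le
    exact h2.1 hx
  · exact ⟨L', hL', hx⟩

/-- **Theorem.** Involutions which induce the same ordering are conjugate. -/
theorem conj_inv (h : Q2 F K) {τ τ' : K ≃ₐ[F] K} (hτ : Inv τ) (hτ' : Inv τ')
    (hP : ∀ a : F, Sq τ (algebraMap F K a) → Sq τ' (algebraMap F K a)) :
    ∃ g : K ≃ₐ[F] K, ∀ x : K, τ' (g x) = g (τ x) := by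
  have := h.gal
  have hbot : (⊥ : Lifts F K K) ∈ Good τ τ' := by
    refine ⟨bot_le, ?_⟩
    rintro ⟨x, hx⟩ hx1
    have hx' := hx
    change x ∈ (⊥ : IntermediateField F K) at hx'
    rw [IntermediateField.mem_bot] at hx'
    obtain ⟨a, rfl⟩ := hx'
    have e : (⊥ : Lifts F K K).emb ⟨algebraMap F K a, hx⟩ = algebraMap F K a :=
      (⊥ : Lifts F K K).emb.commutes a
    rw [e]
    exact hP a hx1
  obtain ⟨L, -, hL⟩ := zorn_le_nonempty₀ (Good τ τ') (by
    intro c hcs hc L0 hL0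
    refine ⟨Lifts.union c hc, ⟨?_, ?_⟩, fun z hz => Lifts.le_union c hc hz⟩
    · intro x hx
      obtain ⟨L', hL', hx'⟩ := mem_union hL0 hx
      exact (hcs hL').1 hx'
    · rintro ⟨x, hx⟩ hx1
      obtain ⟨L', hL', hx'⟩ := mem_union hL0 hx
      have h1 := Lifts.le_union c hc hL'
      have h2 := h1.2 ⟨x, hx'⟩
      have h3 := (hcs hL').2 ⟨x, hx'⟩ hx1
      rw [← h2] at h3
      exact h3) ⊥ hbot
  obtain ⟨⟨hL1, hL2⟩, hmax⟩ := hL
  obtain ⟨ψ, hψ⟩ := exists_ext L.emb
  have hψ2 : ∀ x ∈ L.carrier, Sq τ x → Sq τ' (ψ x) := by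
    intro x hx hx1
    rw [hψ ⟨x, hx⟩]
    exact hL2 ⟨x, hx⟩ hx1
  -- the carrier is everything
  have hall : L.carrier = Mf τ := by
    by_contra hne
    obtain ⟨y₀, hy₀M, hy₀, hy₀2⟩ := h.qs hL1 hne
    -- choose the positive root
    obtain ⟨y, hyS, hyE, hy2⟩ : ∃ y : K, Sq τ y ∧ y ∉ L.carrier ∧ y ^ 2 ∈ L.carrier := by
      rcases hτ.tot (mem_Mf.1 hy₀M) with h1 | h1
      · exact ⟨y₀, h1, hy₀, hy₀2⟩
      · refine ⟨-y₀, h1, fun h2 => hy₀ ?_, by rwa [neg_sq]⟩
        have := neg_mem h2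
        rwa [neg_neg] at this
    -- choose the extension with positive value
    obtain ⟨ψ', hψ', hψ'y⟩ : ∃ ψ' : K ≃ₐ[F] K, (∀ x ∈ L.carrier, ψ' x = ψ x) ∧ Sq τ' (ψ' y) := by
      have h1 : Sq τ' (ψ (y ^ 2)) := hψ2 _ hy2 (sq_of_fix hyS.fix)
      obtain ⟨e, he, he2⟩ := h1
      rw [map_pow] at he2
      have h2 : Sq τ' (ψ y) ∨ Sq τ' (-(ψ y)) := by
        apply hτ'.tot
        rcases sq_eq_sq_iff_eq_or_eq_neg.1 he2 with h3 | h3
        · rw [← h3, he]
        · have : ψ y = -e := by rw [h3, neg_neg]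
          rw [this, map_neg, he]
      rcases h2 with h2 | h2
      · exact ⟨ψ, fun _ _ => rfl, h2⟩
      · -- an automorphism over `L.carrier` moving `y`
        obtain ⟨s, hs, hsy⟩ : ∃ s : K ≃ₐ[F] K, (∀ x ∈ L.carrier, s x = x) ∧ s y ≠ y := by
          by_contra hcon
          push Not at hcon
          apply hyE
          have h4 : L.carrier = IntermediateField.fixedField L.carrier.fixingSubgroup :=
            (InfiniteGalois.fixedField_fixingSubgroup L.carrier).symm
          rw [h4, IntermediateField.mem_fixedField_iff]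
          intro s hs
          exact hcon s fun x hx => hs ⟨x, hx⟩
        have h3 : s y = -y := by
          have h4 : (s y) ^ 2 = y ^ 2 := by rw [← map_pow, hs _ hy2]
          rcases sq_eq_sq_iff_eq_or_eq_neg.1 h4 with h5 | h5
          · exact absurd h5 hsy
          · exact h5
        refine ⟨ψ * s, fun x hx => ?_, ?_⟩
        · rw [AlgEquiv.mul_apply, hs x hx]
        · rw [AlgEquiv.mul_apply, h3, map_neg]
          exact h2
    let L' : Lifts F K K := ⟨qext L.carrier y hy2, (ψ' : K →ₐ[F] K).comp (qext L.carrier y hy2).val⟩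
    have hle : L ≤ L' := by
      refine ⟨le_qext (hy := hy2), fun x => ?_⟩
      change ψ' (x : K) = _
      rw [hψ' x x.2, hψ]
    have hL' : L' ∈ Good τ τ' := by
      constructor
      · rintro x ⟨a, ha, b, hb, rfl⟩
        exact add_mem (hL1 ha) (mul_mem (hL1 hb) (mem_Mf.2 hyS.fix))
      · rintro ⟨x, a, ha, b, hb, rfl⟩ hx
        change Sq τ' (ψ' (a + b * y))
        exact sign hτ hτ' (fun x hx => hL1 hx) ψ' (fun x hx hx1 => by
          rw [hψ' x hx]
          exact hψ2 x hx hx1) hyE hy2 hyS hψ'y ha hb hx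
    exact hyE ((hmax hL' hle).1 (self_qext (hy := hy2)))
  refine ⟨ψ, fun x => ?_⟩
  obtain ⟨i, hi, hi1⟩ := hτ.exists_i
  obtain ⟨a, b, ha, hb, rfl⟩ := hτ.decomp hi x
  have hfix : ∀ a : K, τ a = a → τ' (ψ a) = ψ a := by
    intro a ha
    have haL : a ∈ L.carrier := by rw [hall]; exact ha
    rcases hτ.tot ha with h1 | h1
    · exact (hψ2 a haL h1).fix
    · have := (hψ2 (-a) (neg_mem haL) h1).fix
      rw [map_neg, map_neg] at this
      exact neg_injective this
  have hi' : (ψ i) ^ 2 = -1 := by rw [← map_pow, hi, map_neg, map_one]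
  rw [map_add, map_mul, map_add, map_mul, hfix a ha, hfix b hb, hτ'.i_neg hi', map_add, map_mul,
    ha, hb, hi1, map_add, map_mul, map_neg]

end Pool.Agent.Helper99.ER
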