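import Mathlib
import Pool.Agent.Helper99.ER.Conj

set_option autoImplicit false

/-! Every ordering is induced by an involution. -/

namespace Pool.Agent.Helper99.ER

open IntermediateField

variable {F K : Type} [Field F] [Field K] [Algebra F K]

/-- sums of squares of elements of `M` times elements of `P` -/
def SP (P : Subgroup Fˣ) (M : IntermediateField F K) : AddSubmonoid K :=
  AddSubmonoid.closure {z | ∃ p ∈ P, ∃ w ∈ M, z = algebraMap F K (p : F) * w ^ 2}

variable {P : Subgroup Fˣ} {M M' : IntermediateField F K}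

lemma SP.gen {p : Fˣ} (hp : p ∈ P) {w : K} (hw : w ∈ M) :
    algebraMap F K (p : F) * w ^ 2 ∈ SP P M :=
  AddSubmonoid.subset_closure ⟨p, hp, w, hw, rfl⟩

lemma SP.sq {w : K} (hw : w ∈ M) : w ^ 2 ∈ SP P M := by
  have := SP.gen (P := P) (p := 1) (one_mem _) hw
  rwa [Units.val_one, map_one, one_mul] at this

lemma SP.one : (1 : K) ∈ SP P M := by
  have := SP.sq (P := P) (M := M) (one_mem M)
  rwa [one_pow] at this

lemma SP.of_mem {p : Fˣ} (hp : p ∈ P) : algebraMap F K (p : F) ∈ SP P M := by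
  have := SP.gen (P := P) hp (one_mem M)
  rwa [one_pow, mul_one] at this

lemma SP.mul {x y : K} (hx : x ∈ SP P M) (hy : y ∈ SP P M) : x * y ∈ SP P M := by
  unfold SP at hx
  induction hx using AddSubmonoid.closure_induction with
  | mem x hx =>
    obtain ⟨p, hp, w, hw, rfl⟩ := hx
    unfold SP at hy
    induction hy using AddSubmonoid.closure_induction with
    | mem y hy =>
      obtain ⟨q, hq, v, hv, rfl⟩ := hy
      have h1 := SP.gen (P := P) (mul_mem hp hq) (mul_mem hw hv)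
      rw [Units.val_mul, map_mul] at h1
      have e : algebraMap F K (p : F) * w ^ 2 * (algebraMap F K (q : F) * v ^ 2) =
          algebraMap F K (p : F) * algebraMap F K (q : F) * (w * v) ^ 2 := by ring
      rw [e]
      exact h1
    | zero => rw [mul_zero]; exact zero_mem _
    | add a b _ _ ha hb => rw [mul_add]; exact add_mem ha hb
  | zero => rw [zero_mul]; exact zero_mem _
  | add a b _ _ ha hb => rw [add_mul]; exact add_mem ha hb

lemma SP.mem {x : K} (hx : x ∈ SP P M) : x ∈ M := by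
  unfold SP at hx
  induction hx using AddSubmonoid.closure_induction with
  | mem x hx =>
    obtain ⟨p, hp, w, hw, rfl⟩ := hx
    exact mul_mem (M.algebraMap_mem _) (pow_mem hw 2)
  | zero => exact zero_mem _
  | add a b _ _ ha hb => exact add_mem ha hb

lemma SP.inv {x : K} (hx : x ∈ SP P M) : x⁻¹ ∈ SP P M := by
  by_cases h0 : x = 0
  · rw [h0, inv_zero]; exact zero_mem _
  · have h1 := SP.mul hx (SP.sq (P := P) (inv_mem (SP.mem hx)))
    have e : x * x⁻¹ ^ 2 = x⁻¹ := by field_simp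
    rwa [e] at h1

lemma SP.ext {y z : K} (hy : y ^ 2 ∈ M) (hyz : y ^ 2 = z) {s : K} (hs : s ∈ SP P (qext M y hy)) :
    ∃ s₁ ∈ SP P M, ∃ s₂ ∈ SP P M, ∃ c ∈ M, s = s₁ + z * s₂ + c * y := by
  unfold SP at hs
  induction hs using AddSubmonoid.closure_induction with
  | mem x hx =>
    obtain ⟨p, hp, _, ⟨a, ha, b, hb, rfl⟩, rfl⟩ := hx
    refine ⟨_, SP.gen hp ha, _, SP.gen hp hb, algebraMap F K (p : F) * (2 * a * b),
      mul_mem (M.algebraMap_mem _) (mul_mem (mul_mem (by simp) ha) hb), ?_⟩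
    rw [← hyz]; ring
  | zero => exact ⟨0, zero_mem _, 0, zero_mem _, 0, zero_mem _, by ring⟩
  | add u v _ _ hu hv =>
    obtain ⟨s₁, h1, s₂, h2, c, hc, rfl⟩ := hu
    obtain ⟨t₁, h3, t₂, h4, d, hd, rfl⟩ := hv
    exact ⟨_, add_mem h1 h3, _, add_mem h2 h4, _, add_mem hc hd, by ring⟩

lemma mem_sSup_chain {c : Set (IntermediateField F K)} (hc : IsChain (· ≤ ·) c) (hne : c.Nonempty)
    {x : K} (hx : x ∈ sSup c) : ∃ M ∈ c, x ∈ M := by
  have hne' : Nonempty c := hne.to_subtype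
  have dir : Directed (· ≤ ·) (fun i : c => (i : IntermediateField F K)) := hc.directedOn.directed_val
  rw [sSup_eq_iSup', ← SetLike.mem_coe, coe_iSup_of_directed dir, Set.mem_iUnion] at hx
  obtain ⟨⟨M, hM⟩, hx⟩ := hx
  exact ⟨M, hM, hx⟩

lemma SP.mono (h : M ≤ M') : SP P M ≤ SP P M' := by
  apply AddSubmonoid.closure_mono
  rintro _ ⟨p, hp, w, hw, rfl⟩
  exact ⟨p, hp, w, h hw, rfl⟩

lemma SP.chain {c : Set (IntermediateField F K)} (hc : IsChain (· ≤ ·) c) (hne : c.Nonempty)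
    {x : K} (hx : x ∈ SP P (sSup c)) : ∃ M ∈ c, x ∈ SP P M := by
  unfold SP at hx
  induction hx using AddSubmonoid.closure_induction with
  | mem x hx =>
    obtain ⟨p, hp, w, hw, rfl⟩ := hx
    obtain ⟨M, hM, hw⟩ := mem_sSup_chain hc hne hw
    exact ⟨M, hM, SP.gen hp hw⟩
  | zero =>
    obtain ⟨M, hM⟩ := hne
    exact ⟨M, hM, zero_mem _⟩
  | add a b _ _ ha hb =>
    obtain ⟨M₁, h1, ha⟩ := ha
    obtain ⟨M₂, h2, hb⟩ := hb
    rcases hc.total h1 h2 with h3 | h3
    · exact ⟨M₂, h2, add_mem (SP.mono h3 ha) hb⟩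
    · exact ⟨M₁, h1, add_mem ha (SP.mono h3 hb)⟩

/-- the fixed field of an involution for a given ordering -/
theorem exists_max (hroot : ∀ x : K, ∃ y : K, y ^ 2 = x) (hneg : -1 ∉ P)
    (htot : ∀ u : Fˣ, u ∈ P ∨ -u ∈ P) (hadd : ∀ u ∈ P, ∃ z : Fˣ, (z : F) = 1 + u ∧ z ∈ P) :
    ∃ M : IntermediateField F K, (-1 : K) ∉ SP P M ∧
      (∀ z ∈ M, (∃ w ∈ M, w ^ 2 = z) ∨ ∃ w ∈ M, w ^ 2 = -z) := by
  -- the ordering of `F`
  have hadd' : ∀ u ∈ P, ∀ v ∈ P, ∃ z : Fˣ, (z : F) = u + v ∧ z ∈ P := by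
    intro u hu v hv
    obtain ⟨z, hz, hz1⟩ := hadd (v / u) (div_mem hv hu)
    refine ⟨u * z, ?_, mul_mem hu hz1⟩
    rw [Units.val_mul, hz, Units.val_div_eq_div_val]
    field_simp
  have hsq : ∀ u : Fˣ, u ^ 2 ∈ P := by
    intro u
    rcases htot u with h | h
    · exact pow_mem h 2
    · have := pow_mem h 2
      rwa [neg_sq] at this
  have hbot : (⊥ : IntermediateField F K) ∈ {M : IntermediateField F K | (-1 : K) ∉ SP P M} := by
    intro h1
    have h2 : ∀ x ∈ SP P (⊥ : IntermediateField F K), x = 0 ∨ ∃ p ∈ P, x = algebraMap F K (p : F) := by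
      intro x hx
      unfold SP at hx
      induction hx using AddSubmonoid.closure_induction with
      | mem x hx =>
        obtain ⟨p, hp, w, hw, rfl⟩ := hx
        rw [IntermediateField.mem_bot] at hw
        obtain ⟨b, rfl⟩ := hw
        by_cases hb : b = 0
        · left
          rw [hb, map_zero]; ring
        · right
          refine ⟨p * (Units.mk0 b hb) ^ 2, mul_mem hp (hsq _), ?_⟩
          rw [Units.val_mul, Units.val_pow_eq_pow_val, Units.val_mk0, map_mul, map_pow]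
      | zero => exact Or.inl rfl
      | add a b _ _ ha hb =>
        rcases ha with rfl | ⟨p, hp, rfl⟩
        · rw [zero_add]; exact hb
        · rcases hb with rfl | ⟨q, hq, rfl⟩
          · rw [add_zero]; exact Or.inr ⟨p, hp, rfl⟩
          · right
            obtain ⟨z, hz, hz1⟩ := hadd' p hp q hq
            exact ⟨z, hz1, by rw [hz, map_add]⟩
    rcases h2 _ h1 with h3 | ⟨p, hp, h3⟩
    · exact neg_ne_zero.2 one_ne_zero h3
    · apply hneg
      have h4 : (p : F) = -1 := by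
        apply (algebraMap F K).injective
        rw [← h3, map_neg, map_one]
      have h5 : p = -1 := by
        ext
        rw [h4, Units.val_neg, Units.val_one]
      rwa [← h5]
  obtain ⟨M, -, hM, hmax⟩ := zorn_le_nonempty₀ {M : IntermediateField F K | (-1 : K) ∉ SP P M} (by
    intro c hcs hc M0 hM0
    refine ⟨sSup c, ?_, fun z hz => le_sSup hz⟩
    intro h1
    obtain ⟨M, hM, h2⟩ := SP.chain hc ⟨M0, hM0⟩ h1
    exact hcs hM h2) ⊥ hbot
  have hM1 : (-1 : K) ∉ SP P M := hM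
  refine ⟨M, hM1, ?_⟩
  -- nonsquares
  have key : ∀ z ∈ M, (¬ ∃ w ∈ M, w ^ 2 = z) → -z ∈ SP P M := by
    intro z hz hsqz
    obtain ⟨y, hy⟩ := hroot z
    have hyM : y ∉ M := fun h => hsqz ⟨y, h, hy⟩
    have hy2 : y ^ 2 ∈ M := by rw [hy]; exact hz
    have h1 : (-1 : K) ∈ SP P (qext M y hy2) := by
      by_contra hcon
      exact hyM ((hmax hcon le_qext) self_qext)
    obtain ⟨s₁, h2, s₂, h3, c, hc, h4⟩ := SP.ext hy2 hy h1
    have h5 : c = 0 := by
      have h6 : (s₁ + z * s₂ + 1) + c * y = 0 := by linear_combination -h4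
      exact (eq_zero_of hyM (add_mem (add_mem (SP.mem h2) (mul_mem hz (SP.mem h3))) (one_mem _))
        hc h6).2
    rw [h5, zero_mul, add_zero] at h4
    have h6 : s₂ ≠ 0 := by
      rintro rfl
      rw [mul_zero, add_zero] at h4
      rw [h4] at hM1
      exact hM1 h2
    have h7 : -z = (1 + s₁) * s₂⁻¹ := by
      field_simp
      linear_combination h4
    rw [h7]
    exact SP.mul (add_mem SP.one h2) (SP.inv h3)
  intro z hz
  by_contra hcon
  push Not at hcon
  obtain ⟨h1, h2⟩ := hcon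
  have hz0 : z ≠ 0 := by
    rintro rfl
    exact h1 0 (zero_mem _) (by ring)
  have h3 := key z hz (by push Not; exact h1)
  have h4 := key (-z) (neg_mem hz) (by push Not; exact h2)
  rw [neg_neg] at h4
  apply hM1
  have h5 := SP.mul (SP.mul h3 h4) (SP.sq (P := P) (inv_mem hz))
  have e : -z * z * z⁻¹ ^ 2 = -1 := by field_simp
  rwa [e] at h5

/-- square roots in `M(i)` -/
lemma exists_sqrt (h2 : (2 : K) ≠ 0) (hM : (-1 : K) ∉ SP P M)
    (hE : ∀ z ∈ M, (∃ w ∈ M, w ^ 2 = z) ∨ ∃ w ∈ M, w ^ 2 = -z) {i : K} (hi : i ^ 2 = -1)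
    {a b : K} (ha : a ∈ M) (hb : b ∈ M) : ∃ c ∈ M, ∃ d ∈ M, (c + d * i) ^ 2 = a + b * i := by
  have h2M : (2 : K) ∈ M := by simp
  by_cases hb0 : b = 0
  · rcases hE a ha with ⟨w, hw, hw1⟩ | ⟨w, hw, hw1⟩
    · exact ⟨w, hw, 0, zero_mem _, by rw [hb0]; linear_combination hw1⟩
    · exact ⟨0, zero_mem _, w, hw, by rw [hb0]; linear_combination w ^ 2 * hi - hw1⟩
  have hN : a ^ 2 + b ^ 2 ∈ SP P M := add_mem (SP.sq ha) (SP.sq hb)
  obtain ⟨n, hn, hn1⟩ : ∃ n ∈ M, n ^ 2 = a ^ 2 + b ^ 2 := by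
    rcases hE _ (SP.mem hN) with h | ⟨w, hw, hw1⟩
    · exact h
    · exfalso
      by_cases hw0 : w = 0
      · -- a² + b² = 0
        rw [hw0] at hw1
        apply hM
        have h3 := SP.sq (P := P) (div_mem ha hb)
        have e : (a / b) ^ 2 = -1 := by
          rw [div_pow, div_eq_iff (pow_ne_zero 2 hb0)]
          linear_combination hw1
        rwa [e] at h3
      · apply hM
        have h3 := SP.mul hN (SP.sq (P := P) (inv_mem hw))
        have e : (a ^ 2 + b ^ 2) * w⁻¹ ^ 2 = -1 := by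
          rw [inv_pow, ← div_eq_mul_inv, div_eq_iff (pow_ne_zero 2 hw0)]
          linear_combination hw1
        rwa [e] at h3
  have hne : ∀ n u : K, n ^ 2 = a ^ 2 + b ^ 2 → 2 * u ^ 2 = a + n → u ≠ 0 := by
    rintro n u hn1 hu1 rfl
    apply hb0
    have h5 : b ^ 2 = 0 := by linear_combination -hn1 - (n - a) * hu1
    exact pow_eq_zero_iff (two_ne_zero) |>.1 h5
  -- choose the sign of `n`
  obtain ⟨n, hn, hn1, u, hu, hu1⟩ : ∃ n ∈ M, n ^ 2 = a ^ 2 + b ^ 2 ∧ ∃ u ∈ M,
      2 * u ^ 2 = a + n := by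
    rcases hE ((a + n) / 2) (div_mem (add_mem ha hn) h2M) with ⟨u, hu, hu1⟩ | ⟨u, hu, hu1⟩
    · refine ⟨n, hn, hn1, u, hu, ?_⟩
      rw [hu1]; field_simp
    · have h3 : 2 * u ^ 2 = -(a + n) := by
        rw [hu1]; field_simp
      have hu0 : u ≠ 0 := by
        rintro rfl
        apply hb0
        have h5 : b ^ 2 = 0 := by linear_combination -hn1 + (n - a) * h3
        exact pow_eq_zero_iff (two_ne_zero) |>.1 h5
      refine ⟨-n, neg_mem hn, by rw [neg_sq]; exact hn1, b / (2 * u), div_mem hb (mul_mem h2M hu),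
        ?_⟩
      rw [div_pow, mul_div_assoc', div_eq_iff (pow_ne_zero 2 (mul_ne_zero h2 hu0))]
      linear_combination (-2 * (a - n)) * h3 - 2 * hn1
  have hu0 : u ≠ 0 := hne n u hn1 hu1
  obtain ⟨v, hv⟩ : ∃ v, v = b / (2 * u) := ⟨_, rfl⟩
  have hv1 : 2 * u * v = b := by rw [hv]; field_simp
  refine ⟨u, hu, v, by rw [hv]; exact div_mem hb (mul_mem h2M hu), ?_⟩
  have h4 : (4 * u ^ 2) * (u ^ 2 - v ^ 2 - a) = 0 := by
    linear_combination (2 * u ^ 2 + n - a) * hu1 + hn1 - (2 * u * v + b) * hv1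
  have h5 : u ^ 2 - v ^ 2 - a = 0 := by
    rcases mul_eq_zero.1 h4 with h6 | h6
    · exfalso
      have h7 : (2 * u) ^ 2 = 0 := by linear_combination h6
      exact mul_ne_zero h2 hu0 (pow_eq_zero_iff (two_ne_zero) |>.1 h7)
    · exact h6
  linear_combination h5 + v ^ 2 * hi + i * hv1

/-- **Theorem.** Every ordering is induced by an involution. -/
theorem exists_inv (h : Q2 F K) (hneg : -1 ∉ P) (htot : ∀ u : Fˣ, u ∈ P ∨ -u ∈ P)
    (hadd : ∀ u ∈ P, ∃ z : Fˣ, (z : F) = 1 + u ∧ z ∈ P) :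
    ∃ τ : K ≃ₐ[F] K, Inv τ ∧ Pos τ = P := by
  have := h.gal
  obtain ⟨M, hM, hE⟩ := exists_max (K := K) h.root hneg htot hadd
  obtain ⟨i, hi⟩ := h.root (-1)
  have hiM : i ∉ M := by
    intro h1
    apply hM
    have := SP.sq (P := P) h1
    rwa [hi] at this
  have hi2 : i ^ 2 ∈ M := by rw [hi]; exact neg_mem (one_mem _)
  -- `M(i)` is everything
  have htop : ∀ x : K, ∃ a ∈ M, ∃ b ∈ M, x = a + b * i := by
    have h1 : qext M i hi2 = ⊤ := by
      by_contra hne
      obtain ⟨y, -, hy, hy2⟩ := h.qs (le_top (a := qext M i hi2)) hne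
      obtain ⟨a, ha, b, hb, hab⟩ := hy2
      obtain ⟨c, hc, d, hd, hcd⟩ := exists_sqrt h.two hM hE hi ha hb
      apply hy
      rw [← hab] at hcd
      have hmem : c + d * i ∈ qext M i hi2 := ⟨c, hc, d, hd, rfl⟩
      rcases sq_eq_sq_iff_eq_or_eq_neg.1 hcd with h2 | h2
      · rwa [← h2]
      · have h3 := neg_mem hmem
        rwa [h2, neg_neg] at h3
    intro x
    have h2 : x ∈ qext M i hi2 := by rw [h1]; exact IntermediateField.mem_top
    exact h2
  -- the involution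
  obtain ⟨s, hs, hsi⟩ : ∃ s : K ≃ₐ[F] K, (∀ x ∈ M, s x = x) ∧ s i ≠ i := by
    by_contra hcon
    push Not at hcon
    apply hiM
    have h4 : M = IntermediateField.fixedField M.fixingSubgroup :=
      (InfiniteGalois.fixedField_fixingSubgroup M).symm
    rw [h4, IntermediateField.mem_fixedField_iff]
    intro s hs
    exact hcon s fun x hx => hs ⟨x, hx⟩
  have hsi' : s i = -i := by
    have h4 : (s i) ^ 2 = i ^ 2 := by rw [← map_pow, hi, map_neg, map_one]
    rcases sq_eq_sq_iff_eq_or_eq_neg.1 h4 with h5 | h5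
    · exact absurd h5 hsi
    · exact h5
  have hInv : Inv s := by
    refine ⟨h.two, h.root, ?_, ?_⟩
    · rintro rfl
      exact hsi rfl
    · intro x
      obtain ⟨a, ha, b, hb, rfl⟩ := htop x
      rw [map_add, map_mul, hs a ha, hs b hb, hsi', map_add, map_mul, map_neg, hs a ha, hs b hb,
        hsi', neg_neg]
  have hle : P ≤ Pos s := by
    intro p hp
    rcases hE _ (M.algebraMap_mem (p : F)) with ⟨w, hw, hw1⟩ | ⟨w, hw, hw1⟩
    · exact ⟨w, hs w hw, hw1⟩
    · exfalso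
      apply hM
      have hp0 : algebraMap F K (p : F) ≠ 0 := (map_ne_zero _).2 p.ne_zero
      have h1 := SP.mul (SP.of_mem (K := K) (M := M) hp) (SP.sq (P := P) (inv_mem hw))
      have hw0 : w ≠ 0 := by
        rintro rfl
        apply hp0
        linear_combination hw1
      have e : algebraMap F K (p : F) * w⁻¹ ^ 2 = -1 := by
        rw [inv_pow, ← div_eq_mul_inv, div_eq_iff (pow_ne_zero 2 hw0)]
        linear_combination hw1
      rwa [e] at h1
  refine ⟨s, hInv, le_antisymm ?_ hle⟩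
  intro u hu
  rcases htot u with h1 | h1
  · exact h1
  · exfalso
    apply hInv.pos_neg
    have h2 := div_mem (hle h1) hu
    rwa [neg_div, div_self'] at h2

end Pool.Agent.Helper99.ER
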