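import Mathlib
import Pool.Agent.ETC.All
import Pool.Agent.Helper99.ER.Exist
import Pool.Agent.Helper10.ETC.LocInv

set_option autoImplicit false

/-! Orderings and involutions in the form of the interface file. -/

namespace Pool.Agent.Helper99.ER

open Pool.Agent.ETC
open Pool.Agent.Helper58.EU (Ordg)
open Pool.Agent.Helper10.ETC (mem_Pos_iff_fx)

lemma two_ne {F : Type} [Field F] {ζ : F} (hζ : IsPrimitiveRoot ζ 2) : (2 : F) ≠ 0 := by
  have : NeZero 2 := ⟨by norm_num⟩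
  have h := hζ.neZero'
  have h1 : ((2 : ℕ) : F) ≠ 0 := h.ne
  rwa [Nat.cast_ofNat] at h1

section

variable {F K : Type} [Field F] [Field K] [Algebra F K]

lemma inv_of {ζ : F} (hζ : IsPrimitiveRoot ζ 2) (h : PCl 2 F K) {τ : K ≃ₐ[F] K}
    (hτ : ETC.Inv τ) : ER.Inv τ where
  two := (Q2.of_pcl h (two_ne hζ)).two
  root := h.root
  ne := hτ.2
  inv := fun x => by
    rw [← AlgEquiv.mul_apply, hτ.1]
    rfl

lemma of_inv {τ : K ≃ₐ[F] K} (hτ : ER.Inv τ) : ETC.Inv τ :=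
  ⟨AlgEquiv.ext fun x => hτ.inv x, hτ.ne⟩

end

theorem t_EXIST : S_EXIST := by
  intro F K _ _ _ ζ hζ h P hP
  obtain ⟨τ, hτ, hP'⟩ := exists_inv (K := K) (Q2.of_pcl h (two_ne hζ)) hP.neg hP.tot hP.add
  refine ⟨τ, of_inv hτ, fun t => ?_⟩
  rw [← hP']
  exact mem_Pos_iff_fx hτ t

theorem t_CONJINV : S_CONJINV := by
  intro F K _ _ _ ζ hζ h τ τ' hτ hτ' hP
  have h1 := inv_of hζ h hτ
  have h2 := inv_of hζ h hτ'
  obtain ⟨g, hg⟩ := conj_inv (Q2.of_pcl h (two_ne hζ)) h1 h2 (by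
    intro a ha
    by_cases ha0 : a = 0
    · rw [ha0, map_zero]
      exact Sq.zero
    · have h3 := (mem_Pos_iff_fx h2 (Units.mk0 a ha0)).2 (hP _ ((mem_Pos_iff_fx h1 _).1 ha))
      exact h3)
  refine ⟨g, ?_⟩
  ext x
  rw [AlgEquiv.mul_apply, AlgEquiv.mul_apply, hg, ← AlgEquiv.mul_apply, inv_mul_cancel]
  rfl

end Pool.Agent.Helper99.ER
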