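import Mathlib
import Pool.Agent.Helper99.ER.Glue

set_option autoImplicit false

/-! Involutions as local groups, in the form of the interface file. -/

namespace Pool.Agent.Helper99.ER

open Pool.Agent.ETC
open Pool.Agent.Helper58.EU (Ordg)
open Pool.Agent.Helper10.ETC (goodZ_inv h1_inv)

theorem ordg_Pos {F K : Type} [Field F] [Field K] [Algebra F K] {τ : K ≃ₐ[F] K}
    (h : ER.Inv τ) : Ordg (Pos τ) := by
  refine ⟨h.pos_neg, h.pos_tot, fun u hu => ?_⟩
  obtain ⟨z, hz, hz1⟩ := h.pos_add (one_mem _) hu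
  exact ⟨z, by rw [hz, Units.val_one], hz1⟩

theorem t_INVO : S_INVO := by
  intro F K _ _ _ ζ hζ h τ hτ
  have h1 := inv_of hζ h hτ
  refine ⟨Pos τ, ordg_Pos h1, ?_, fun x _ hx => h1_inv h1 hx⟩
  have e : ζ = -1 := hζ.eq_neg_one_of_two_right
  rw [e]
  exact goodZ_inv h1

end Pool.Agent.Helper99.ER
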